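import Mathlib

set_option autoImplicit false

namespace Pool.Agent.Results.MP_2a41cd_an.RotundSmoothTiling

open Finset

noncomputable def av (a : ℕ → ℝ) : ℝ := ∑' j, (1 / 2 : ℝ) ^ (j + 1) * a j

def Sm (a : ℕ → ℝ) : Prop := Summable fun j => (1 / 2 : ℝ) ^ (j + 1) * a j

theorem hs_const (c : ℝ) : HasSum (fun j : ℕ => (1 / 2 : ℝ) ^ (j + 1) * c) c := by
  have := (hasSum_geometric_two.mul_right (c / 2))
  rw [show 2 * (c / 2) = c by ring] at this
  exact this.congr_fun fun j => by ring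

theorem hs_geo : HasSum (fun j : ℕ => (1 / 2 : ℝ) ^ (j + 1) * (3 / 2) ^ j) 2 := by
  have := (hasSum_geometric_of_lt_one (r := 3 / 4) (by norm_num) (by norm_num)).mul_right (1 / 2)
  rw [show (1 - 3 / 4 : ℝ)⁻¹ * (1 / 2) = 2 by norm_num] at this
  refine this.congr_fun fun j => ?_
  rw [show (3 / 4 : ℝ) = 1 / 2 * (3 / 2) by norm_num, mul_pow]; ring

theorem hs_single (m : ℕ) : HasSum (fun j : ℕ => (1 / 2 : ℝ) ^ (j + 1) * if j = m then 1 else 0)
    ((1 / 2) ^ (m + 1)) := by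
  have := hasSum_single (f := fun j : ℕ => (1 / 2 : ℝ) ^ (j + 1) * if j = m then 1 else 0) m
    (fun b hb => by simp [hb])
  simpa using this

theorem sm_bdd {a : ℕ → ℝ} (C : ℝ) (h : ∀ j, 0 ≤ a j) (h' : ∀ j, a j ≤ C) : Sm a :=
  Summable.of_nonneg_of_le (fun j => mul_nonneg (by positivity) (h j))
    (fun j => mul_le_mul_of_nonneg_left (h' j) (by positivity)) (hs_const C).summable

theorem av_lin {a b c d : ℕ → ℝ} (ha : Sm a) (hb : Sm b) (hc : Sm c) (hd : Sm d) (p q r K : ℝ)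
    (h : ∀ j, a j ≤ p * b j + q * c j + r * d j + K) :
    av a ≤ p * av b + q * av c + r * av d + K := by
  refine hasSum_le (fun j => ?_) ha.hasSum ((((hb.hasSum.mul_left p).add
    (hc.hasSum.mul_left q)).add (hd.hasSum.mul_left r)).add (hs_const K))
  have := mul_le_mul_of_nonneg_left (h j) (show (0 : ℝ) ≤ (1 / 2) ^ (j + 1) by positivity)
  linarith

theorem av_le {a : ℕ → ℝ} (ha : Sm a) (K : ℝ) (h : ∀ j, a j ≤ K) : av a ≤ K := by
  simpa using av_lin ha ha ha ha 0 0 0 K (by simpa using h)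

theorem le_av {a : ℕ → ℝ} (ha : Sm a) (K : ℝ) (h : ∀ j, K ≤ a j) : K ≤ av a := by
  have := av_lin (hs_const 0).summable ha ha ha 1 0 0 (-K) (fun j => by linarith [h j])
  have e : av (fun _ => 0) = 0 := (hs_const 0).tsum_eq
  change av (fun _ => 0) ≤ _ at this
  linarith

section
variable {G : Type}

noncomputable def ip (g u : G →₀ ℝ) : ℝ := ∑ a ∈ u.support, g a * u a

theorem ip_eq (g u : G →₀ ℝ) {F : Finset G} (h : u.support ⊆ F) :
    ip g u = ∑ a ∈ F, g a * u a :=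
  Finset.sum_subset h (fun a _ ha => by rw [Finsupp.notMem_support_iff.mp ha, mul_zero])

noncomputable def nn (R : G → G → Prop) (g : G →₀ ℝ) : ℝ :=
  ⨆ S : {S : Finset G // (S : Set G).Pairwise R}, ∑ a ∈ S.1, g a ^ 2

theorem sum_le_ip (g : G →₀ ℝ) (S : Finset G) : ∑ a ∈ S, g a ^ 2 ≤ ip g g := by
  classical
  rw [ip_eq g g (subset_union_right (s₁ := S))]
  simp only [← sq]
  exact sum_le_sum_of_subset_of_nonneg subset_union_left fun _ _ _ => sq_nonneg _

theorem le_nn {R : G → G → Prop} (g : G →₀ ℝ) (S : Finset G) (h : (S : Set G).Pairwise R) :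
    ∑ a ∈ S, g a ^ 2 ≤ nn R g :=
  le_ciSup (f := fun S : {S : Finset G // (S : Set G).Pairwise R} => ∑ a ∈ S.1, g a ^ 2)
    ⟨ip g g, by rintro _ ⟨S, rfl⟩; exact sum_le_ip g S.1⟩ ⟨S, h⟩

theorem nn_le {R : G → G → Prop} (g : G →₀ ℝ) (C : ℝ)
    (h : ∀ S : Finset G, (S : Set G).Pairwise R → ∑ a ∈ S, g a ^ 2 ≤ C) : nn R g ≤ C :=
  haveI : Nonempty {S : Finset G // (S : Set G).Pairwise R} := ⟨⟨∅, by simp⟩⟩
  ciSup_le fun S => h S.1 S.2

theorem sq_le_nn {R : G → G → Prop} (g : G →₀ ℝ) (a : G) : g a ^ 2 ≤ nn R g := by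
  simpa using le_nn (R := R) g {a} (by simp)

theorem nn_nonneg {R : G → G → Prop} (g : G →₀ ℝ) : 0 ≤ nn R g := by
  simpa using le_nn (R := R) g ∅ (by simp)

theorem nn_le_ip {R : G → G → Prop} (g : G →₀ ℝ) : nn R g ≤ ip g g :=
  nn_le g _ fun S _ => sum_le_ip g S

theorem nn_eq {R : G → G → Prop} (g : G →₀ ℝ) {F : Finset G} (h : g.support ⊆ F)
    (hF : (F : Set G).Pairwise R) : nn R g = ∑ a ∈ F, g a ^ 2 := by
  refine le_antisymm ((nn_le_ip g).trans_eq ?_) (le_nn g F hF)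
  rw [ip_eq g g h]; simp only [sq]

variable (Sep : ℕ → G → G → Prop)

noncomputable def qq (k : ℕ) (g : G →₀ ℝ) : ℝ := av fun j => nn (Sep (k + j)) g

theorem sm_nn (k : ℕ) (g : G →₀ ℝ) : Sm fun j => nn (Sep (k + j)) g :=
  sm_bdd (ip g g) (fun _ => nn_nonneg g) fun _ => nn_le_ip g

theorem qq_nonneg (k : ℕ) (g : G →₀ ℝ) : 0 ≤ qq Sep k g :=
  le_av (sm_nn Sep k g) _ fun _ => nn_nonneg g

theorem qq_le_ip (k : ℕ) (g : G →₀ ℝ) : qq Sep k g ≤ ip g g :=
  av_le (sm_nn Sep k g) _ fun _ => nn_le_ip g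

theorem sq_le_qq (k : ℕ) (g : G →₀ ℝ) (a : G) : g a ^ 2 ≤ qq Sep k g :=
  le_av (sm_nn Sep k g) _ fun _ => sq_le_nn g a

theorem qq_mono (k : ℕ) (g h : G →₀ ℝ) (c : ℝ) (hc : 0 ≤ c) (H : ∀ a, g a ^ 2 ≤ c * h a ^ 2) :
    qq Sep k g ≤ c * qq Sep k h := by
  have := av_lin (sm_nn Sep k g) (sm_nn Sep k h) (sm_nn Sep k h) (sm_nn Sep k h) c 0 0 0
    (fun j => by
      simp only [zero_mul, add_zero]
      refine nn_le g _ fun S hS => (sum_le_sum fun a _ => H a).trans ?_
      rw [← mul_sum]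
      exact mul_le_mul_of_nonneg_left (le_nn h S hS) hc)
  simpa [qq] using this

theorem qq_mid (k m : ℕ) (g h : G →₀ ℝ) {F : Finset G} (hg : g.support ⊆ F) (hh : h.support ⊆ F)
    (hF : (F : Set G).Pairwise (Sep (k + m))) :
    qq Sep k ((1 / 2 : ℝ) • (g + h)) ≤ 1 / 2 * qq Sep k g + 1 / 2 * qq Sep k h -
      (1 / 2) ^ (m + 1) * ((∑ a ∈ F, (g a - h a) ^ 2) / 4) := by
  classical
  have := av_lin (sm_nn Sep k ((1 / 2 : ℝ) • (g + h))) (sm_nn Sep k g) (sm_nn Sep k h)
    (d := fun j => if j = m then 1 else 0) (hs_single m).summable (1 / 2) (1 / 2)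
    (-((∑ a ∈ F, (g a - h a) ^ 2) / 4)) 0 (fun j => by
      split_ifs with hj
      · subst hj
        rw [nn_eq g hg hF, nn_eq h hh hF, nn_eq _ (Finsupp.support_smul.trans
          (Finsupp.support_add.trans (union_subset hg hh))) hF]
        simp only [mul_sum, sum_div, mul_one, add_zero, ← sum_neg_distrib, ← sum_add_distrib]
        refine sum_le_sum fun a _ => le_of_eq ?_
        simp only [Finsupp.smul_apply, Finsupp.add_apply, smul_eq_mul]
        ring
      · refine nn_le _ _ fun S hS => ?_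
        have h1 := le_nn g S hS
        have h2 := le_nn h S hS
        have h3 : ∑ a ∈ S, ((1 / 2 : ℝ) • (g + h)) a ^ 2 ≤
            ∑ a ∈ S, (1 / 2 * g a ^ 2 + 1 / 2 * h a ^ 2) := by
          refine sum_le_sum fun a _ => ?_
          simp only [Finsupp.smul_apply, Finsupp.add_apply, smul_eq_mul]
          nlinarith [sq_nonneg (g a - h a)]
        rw [sum_add_distrib, ← mul_sum, ← mul_sum] at h3
        linarith)
  have e : av (fun j => if j = m then 1 else 0) = (1 / 2) ^ (m + 1) := (hs_single m).tsum_eq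
  rw [e] at this
  unfold qq
  linarith

noncomputable def cj (k : ℕ) (u : G →₀ ℝ) : ℝ := ⨆ g, (2 * ip g u - qq Sep k g)

theorem cj_bd (k : ℕ) (u g : G →₀ ℝ) :
    2 * ip g u - qq Sep k g ≤ (∑ a ∈ u.support, |u a|) ^ 2 := by
  have h1 : ip g u ≤ √(qq Sep k g) * ∑ a ∈ u.support, |u a| := by
    rw [mul_sum]
    refine sum_le_sum fun a _ => (le_abs_self _).trans ?_
    rw [abs_mul]
    exact mul_le_mul_of_nonneg_right (Real.abs_le_sqrt (sq_le_qq Sep k g a)) (abs_nonneg _)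
  have h2 := Real.sq_sqrt (qq_nonneg Sep k g)
  nlinarith [sq_nonneg (√(qq Sep k g) - ∑ a ∈ u.support, |u a|)]

theorem le_cj (k : ℕ) (u g : G →₀ ℝ) : 2 * ip g u - qq Sep k g ≤ cj Sep k u :=
  le_ciSup (f := fun g => 2 * ip g u - qq Sep k g)
    ⟨_, by rintro _ ⟨g, rfl⟩; exact cj_bd Sep k u g⟩ g

theorem ip_le_cj (k : ℕ) (u : G →₀ ℝ) : ip u u ≤ cj Sep k u := by
  linarith [le_cj Sep k u u, qq_le_ip Sep k u]

theorem ip_nonneg (u : G →₀ ℝ) : 0 ≤ ip u u := sum_nonneg fun _ _ => mul_self_nonneg _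

theorem cj_le (k : ℕ) (u : G →₀ ℝ) {F : Finset G} (hu : u.support ⊆ F) (C : ℝ)
    (h : ∀ g : G →₀ ℝ, g.support ⊆ F → 2 * ∑ a ∈ F, g a * u a - qq Sep k g ≤ C) :
    cj Sep k u ≤ C := by
  classical
  refine ciSup_le fun g => ?_
  have h1 := h (g.filter (· ∈ F)) (by
    rw [Finsupp.support_filter]; exact fun a ha => (mem_filter.mp ha).2)
  have h2 := qq_mono Sep k (g.filter (· ∈ F)) g 1 zero_le_one fun a => by
    rw [Finsupp.filter_apply]; split_ifs <;> simp [sq_nonneg]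
  have h3 : ∑ a ∈ F, (g.filter (· ∈ F)) a * u a = ip g u := by
    rw [ip_eq g u hu]
    exact sum_congr rfl fun a ha => by rw [Finsupp.filter_apply_pos _ _ ha]
  linarith

theorem cj_sc (k : ℕ) (u g : G →₀ ℝ) {F : Finset G} (hu : u.support ⊆ F) (t : ℝ) :
    2 * t * ∑ a ∈ F, g a * u a - t ^ 2 * qq Sep k g ≤ cj Sep k u := by
  have h1 := le_cj Sep k u (t • g)
  have h2 := qq_mono Sep k (t • g) g (t ^ 2) (sq_nonneg _) fun a => by simp [mul_pow]
  rw [ip_eq _ u hu] at h1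
  simp only [Finsupp.smul_apply, smul_eq_mul, mul_assoc, ← mul_sum] at h1
  linarith

theorem cj_add (k : ℕ) (u v : G →₀ ℝ) (s t : ℝ) (hs : 0 < s) (ht : 0 < t) (h : s + t = 1) :
    cj Sep k (u + v) ≤ s⁻¹ * cj Sep k u + t⁻¹ * cj Sep k v := by
  classical
  refine cj_le Sep k _ Finsupp.support_add _ fun g _ => ?_
  have h1 := mul_le_mul_of_nonneg_left
    (cj_sc Sep k u g (subset_union_left (s₂ := v.support)) s) (inv_pos.mpr hs).le
  have h2 := mul_le_mul_of_nonneg_left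
    (cj_sc Sep k v g (subset_union_right (s₁ := u.support)) t) (inv_pos.mpr ht).le
  have e : ∀ s A B : ℝ, 0 < s → s⁻¹ * (2 * s * A - s ^ 2 * B) = 2 * A - s * B := by
    intro s A B hs; field_simp
  rw [e _ _ _ hs] at h1
  rw [e _ _ _ ht] at h2
  simp only [Finsupp.add_apply, mul_add, sum_add_distrib]
  have : qq Sep k g = s * qq Sep k g + t * qq Sep k g := by rw [← add_mul, h, one_mul]
  linarith

theorem cj_smul (k : ℕ) (u : G →₀ ℝ) (t : ℝ) : cj Sep k (t • u) ≤ t ^ 2 * cj Sep k u := by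
  refine cj_le Sep k _ Finsupp.support_smul _ fun g _ => ?_
  simp only [Finsupp.smul_apply, smul_eq_mul, mul_left_comm _ t, ← mul_sum]
  by_cases ht : t = 0
  · subst ht; simpa using qq_nonneg Sep k g
  have h1 := mul_le_mul_of_nonneg_left (cj_sc Sep k u g subset_rfl t⁻¹) (sq_nonneg t)
  refine le_of_eq_of_le ?_ h1
  field_simp

theorem cj_eq (k : ℕ) (u : G →₀ ℝ) {F : Finset G} (hu : u.support ⊆ F)
    (hF : ∀ j, (F : Set G).Pairwise (Sep (k + j))) : cj Sep k u = ∑ a ∈ F, u a * u a := by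
  refine le_antisymm (cj_le Sep k u hu _ fun g _ => ?_) ((ip_eq u u hu).ge.trans (ip_le_cj _ _ _))
  have h1 : ∑ a ∈ F, g a ^ 2 ≤ qq Sep k g := le_av (sm_nn Sep k g) _ fun j => le_nn g F (hF j)
  have h2 : ∑ a ∈ F, 2 * (g a * u a) ≤ ∑ a ∈ F, (g a ^ 2 + u a * u a) :=
    sum_le_sum fun a _ => by nlinarith [sq_nonneg (g a - u a)]
  rw [← mul_sum, sum_add_distrib] at h2
  linarith

theorem cj_smooth (k m : ℕ) (u v : G →₀ ℝ) {F : Finset G} (hu : u.support ⊆ F)
    (hv : v.support ⊆ F) (hF : (F : Set G).Pairwise (Sep (k + m))) :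
    cj Sep k (u + v) ≤ 2 * cj Sep k u + (-1) * cj Sep k (u - v) +
      2 * 2 ^ (m + 1) * ∑ a ∈ F, v a ^ 2 := by
  classical
  refine cj_le Sep k _ (Finsupp.support_add.trans (union_subset hu hv)) _ fun g hg => ?_
  suffices H : cj Sep k (u - v) ≤ 2 * cj Sep k u + 2 * 2 ^ (m + 1) * ∑ a ∈ F, v a ^ 2 -
    (2 * ∑ a ∈ F, g a * (u + v) a - qq Sep k g) by linarith
  refine cj_le Sep k _ (Finsupp.support_sub.trans (union_subset hu hv)) _ fun h hh => ?_
  have h1 := qq_mid Sep k m g h hg hh hF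
  have h2 := le_cj Sep k u ((1 / 2 : ℝ) • (g + h))
  rw [ip_eq _ u hu] at h2
  have hc : (1 / 2 : ℝ) ^ (m + 1) * 2 ^ (m + 1) = 1 := by rw [← mul_pow]; norm_num
  have hp : (0 : ℝ) < (1 / 2) ^ (m + 1) := by positivity
  generalize (1 / 2 : ℝ) ^ (m + 1) = c at *
  generalize (2 : ℝ) ^ (m + 1) = d at *
  have h3 : ∑ a ∈ F, (2 * (g a * (u + v) a) + 2 * (h a * (u - v) a)) ≤
      ∑ a ∈ F, (4 * (((1 / 2 : ℝ) • (g + h)) a * u a) + c / 2 * (g a - h a) ^ 2 +
        2 * d * v a ^ 2) := by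
    refine sum_le_sum fun a _ => ?_
    simp only [Finsupp.smul_apply, Finsupp.add_apply, Finsupp.sub_apply, smul_eq_mul]
    have h4 := mul_nonneg hp.le (sq_nonneg (g a - h a - 2 * d * v a))
    have h5 : c * (g a - h a - 2 * d * v a) ^ 2 = c * (g a - h a) ^ 2 -
      4 * (c * d) * (g a - h a) * v a + 4 * (c * d) * d * v a ^ 2 := by ring
    rw [h5, hc] at h4
    linarith
  simp only [sum_add_distrib, ← mul_sum] at h3
  linarith

noncomputable def pp (u : G →₀ ℝ) : ℝ := av fun k => cj Sep k u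

theorem cj_le_l1 (k : ℕ) (u : G →₀ ℝ) : cj Sep k u ≤ (∑ a ∈ u.support, |u a|) ^ 2 :=
  ciSup_le fun g => cj_bd Sep k u g

theorem sm_cj (u : G →₀ ℝ) : Sm fun k => cj Sep k u :=
  sm_bdd _ (fun k => (ip_nonneg u).trans (ip_le_cj Sep k u)) fun k => cj_le_l1 Sep k u

theorem ip_le_pp (u : G →₀ ℝ) : ip u u ≤ pp Sep u := le_av (sm_cj Sep u) _ fun k => ip_le_cj Sep k u

theorem pp_nonneg (u : G →₀ ℝ) : 0 ≤ pp Sep u := (ip_nonneg u).trans (ip_le_pp Sep u)

theorem pp_single (a : G) (t : ℝ) : pp Sep (Finsupp.single a t) ≤ t ^ 2 := by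
  refine av_le (sm_cj Sep _) _ fun k => (cj_le_l1 Sep k _).trans ?_
  by_cases ht : t = 0
  · simp [ht]
  · simp [Finsupp.support_single _ ht]

theorem pp_smul (u : G →₀ ℝ) (t : ℝ) : pp Sep (t • u) ≤ t ^ 2 * pp Sep u := by
  simpa [pp] using av_lin (sm_cj Sep (t • u)) (sm_cj Sep u) (sm_cj Sep u) (sm_cj Sep u) (t ^ 2) 0 0 0
    fun k => by simpa using cj_smul Sep k u t

theorem pp_add (u v : G →₀ ℝ) (s t : ℝ) (hs : 0 < s) (ht : 0 < t) (h : s + t = 1) :
    pp Sep (u + v) ≤ s⁻¹ * pp Sep u + t⁻¹ * pp Sep v := by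
  simpa [pp] using av_lin (sm_cj Sep (u + v)) (sm_cj Sep u) (sm_cj Sep v) (sm_cj Sep u) s⁻¹ t⁻¹ 0 0
    fun k => by simpa using cj_add Sep k u v s t hs ht h

theorem pp_eq_zero (u : G →₀ ℝ) (h : pp Sep u ≤ 0) : u = 0 := by
  ext a
  have := (sum_le_ip u {a}).trans ((ip_le_pp Sep u).trans h)
  rw [sum_singleton] at this
  exact pow_eq_zero_iff (two_ne_zero) |>.mp (le_antisymm this (sq_nonneg _))

theorem sqrt_smul (u : G →₀ ℝ) (t : ℝ) : √(pp Sep (t • u)) ≤ |t| * √(pp Sep u) := by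
  rw [← Real.sqrt_sq_eq_abs, ← Real.sqrt_mul (sq_nonneg t)]
  exact Real.sqrt_le_sqrt (pp_smul Sep u t)

noncomputable def gn : AddGroupNorm (G →₀ ℝ) where
  toFun u := √(pp Sep u)
  map_zero' := le_antisymm (by simpa using sqrt_smul Sep 0 0) (Real.sqrt_nonneg _)
  neg' u := le_antisymm (by simpa using sqrt_smul Sep u (-1)) (by simpa using sqrt_smul Sep (-u) (-1))
  eq_zero_of_map_eq_zero' u h := pp_eq_zero Sep u (Real.sqrt_eq_zero'.mp h)
  add_le' u v := by
    by_cases hu : pp Sep u ≤ 0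
    · rw [pp_eq_zero Sep u hu, zero_add]; exact le_add_of_nonneg_left (Real.sqrt_nonneg _)
    by_cases hv : pp Sep v ≤ 0
    · rw [pp_eq_zero Sep v hv, add_zero]; exact le_add_of_nonneg_right (Real.sqrt_nonneg _)
    have ha := Real.sqrt_pos.mpr (not_le.mp hu)
    have hb := Real.sqrt_pos.mpr (not_le.mp hv)
    have := pp_add Sep u v (√(pp Sep u) / (√(pp Sep u) + √(pp Sep v)))
      (√(pp Sep v) / (√(pp Sep u) + √(pp Sep v))) (by positivity) (by positivity) (by field_simp)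
    refine Real.sqrt_le_iff.mpr ⟨by positivity, this.trans_eq ?_⟩
    have e1 := Real.sq_sqrt (pp_nonneg Sep u)
    have e2 := Real.sq_sqrt (pp_nonneg Sep v)
    generalize √(pp Sep u) = a at *
    generalize √(pp Sep v) = b at *
    rw [← e1, ← e2]
    field_simp

theorem pp_rot (m : ℕ) (u v : G →₀ ℝ) {F : Finset G} (hu : u.support ⊆ F)
    (hv : v.support ⊆ F) (hF : ∀ j, (F : Set G).Pairwise (Sep (m + j))) :
    pp Sep (u + v) ≤ 2 * pp Sep u + 2 * pp Sep v - (1 / 2) ^ (m + 1) * ∑ a ∈ F, (u a - v a) ^ 2 := by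
  classical
  have := av_lin (sm_cj Sep (u + v)) (sm_cj Sep u) (sm_cj Sep v)
    (d := fun j => if j = m then 1 else 0) (hs_single m).summable 2 2
    (-(∑ a ∈ F, (u a - v a) ^ 2)) 0 (fun j => by
      split_ifs with hj
      · subst hj
        rw [cj_eq Sep j u hu hF, cj_eq Sep j v hv hF, cj_eq Sep j _
          (Finsupp.support_add.trans (union_subset hu hv)) hF]
        simp only [mul_sum, mul_one, add_zero, ← sum_neg_distrib, ← sum_add_distrib]
        refine sum_le_sum fun a _ => le_of_eq ?_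
        simp only [Finsupp.add_apply]
        ring
      · have := cj_add Sep j u v (1 / 2) (1 / 2) (by norm_num) (by norm_num) (by norm_num)
        norm_num at this ⊢
        exact this)
  have e : av (fun j => if j = m then 1 else 0) = (1 / 2) ^ (m + 1) := (hs_single m).tsum_eq
  rw [e] at this
  unfold pp
  linarith

theorem pp_smooth (m : ℕ) (u v : G →₀ ℝ) {F : Finset G} (hu : u.support ⊆ F)
    (hv : v.support ⊆ F) (hF : ∀ j, (F : Set G).Pairwise (Sep (m + j))) :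
    pp Sep (u + v) + pp Sep (u - v) ≤ 2 * pp Sep u + 2 * 2 ^ (m + 1) * ∑ a ∈ F, v a ^ 2 := by
  have := av_lin (sm_cj Sep (u + v)) (sm_cj Sep u) (sm_cj Sep (u - v)) (sm_cj Sep u) 2 (-1) 0 _
    (fun k => by simpa using cj_smooth Sep k m u v hu hv (by rw [add_comm]; exact hF k))
  unfold pp
  linarith

theorem pp_far (y : G →₀ ℝ) (a b : G) (hab : a ≠ b) (ha : y a = 0) (hb : y b = 0) (r s : ℝ)
    (h0 : 0 ≤ r + s) (h1 : r + s ≤ 1 / 2) (H : ∀ m, Sep m a b → (2 / 3) ^ m ≤ ip y y) :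
    (r + s) ^ 2 ≤ pp Sep (y + Finsupp.single a r - Finsupp.single b s) := by
  classical
  set v := y + Finsupp.single a r - Finsupp.single b s with hv
  set g := y + Finsupp.single a (r + s) - Finsupp.single b (r + s) with hg
  have hy := ip_nonneg y
  have ha' : a ∉ y.support := by simp [ha]
  have hb' : b ∉ insert a y.support := by simp [hb, hab.symm]
  have e1 : ip g v = ip y y + (r + s) ^ 2 := by
    rw [ip_eq g v (F := insert b (insert a y.support)) (fun c hc => by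
      by_contra hn
      simp only [mem_insert, not_or, Finsupp.mem_support_iff, not_not] at hn
      simp [hv, hn.1, hn.2.1, hn.2.2] at hc), sum_insert hb', sum_insert ha']
    have : ∑ c ∈ y.support, g c * v c = ip y y := sum_congr rfl fun c hc => by
      have c1 : c ≠ a := fun h => ha' (h ▸ hc)
      have c2 : c ≠ b := fun h => hb' (h ▸ mem_insert_of_mem hc)
      simp [hv, hg, c1, c2]
    rw [this]
    simp [hv, hg, ha, hb, hab, hab.symm]
    ring
  have e2 : ∀ m, nn (Sep m) g ≤ ip y y + (r + s) ^ 2 + (r + s) ^ 2 * ip y y * (3 / 2) ^ m := by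
    intro m
    refine nn_le g _ fun S hS => ?_
    have h2 : ∑ c ∈ S, g c ^ 2 = ∑ c ∈ S, (y c ^ 2 + ((if a = c then (r + s) ^ 2 else 0) +
        if b = c then (r + s) ^ 2 else 0)) := sum_congr rfl fun c _ => by
      by_cases c1 : a = c
      · subst c1; simp [hg, ha, hab, hab.symm]
      by_cases c2 : b = c
      · subst c2; simp [hg, hb, hab, hab.symm]; ring
      simp [hg, c1, c2, Ne.symm c1, Ne.symm c2]
    rw [h2, sum_add_distrib, sum_add_distrib, sum_ite_eq, sum_ite_eq]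
    have h3 := sum_le_ip y S
    have h4 : 0 ≤ (r + s) ^ 2 * ip y y * (3 / 2) ^ m := by positivity
    split_ifs with c1 c2
    · have h5 := mul_le_mul_of_nonneg_right (H m (hS c1 c2 hab))
        (show (0 : ℝ) ≤ (3 / 2) ^ m by positivity)
      rw [← mul_pow] at h5
      norm_num at h5
      nlinarith [sq_nonneg (r + s)]
    all_goals nlinarith [sq_nonneg (r + s)]
  have e3 : ∀ k, qq Sep k g ≤ ip y y + (r + s) ^ 2 + 2 * ((r + s) ^ 2 * ip y y) * (3 / 2) ^ k := by
    intro k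
    have := av_lin (sm_nn Sep k g) (b := fun j => (3 / 2) ^ j) hs_geo.summable (sm_nn Sep k g)
      (sm_nn Sep k g) ((r + s) ^ 2 * ip y y * (3 / 2) ^ k) 0 0 (ip y y + (r + s) ^ 2) fun j => by
        have := e2 (k + j)
        rw [pow_add] at this
        linarith
    have e : av (fun j => (3 / 2) ^ j) = 2 := hs_geo.tsum_eq
    rw [e] at this
    unfold qq
    linarith
  have := av_lin (hs_const 0).summable (b := fun j => (3 / 2) ^ j) hs_geo.summable (sm_cj Sep v)
    (sm_cj Sep v) (2 * ((r + s) ^ 2 * ip y y)) 1 0 (-(ip y y + (r + s) ^ 2)) fun k => by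
      linarith [le_cj Sep k v g, e3 k]
  have e : av (fun j => (3 / 2) ^ j) = 2 := hs_geo.tsum_eq
  have e' : av (fun _ => 0) = 0 := (hs_const 0).tsum_eq
  change av (fun _ => 0) ≤ _ at this
  rw [e, e'] at this
  have h6 : (r + s) ^ 2 ≤ 1 / 4 := by nlinarith
  unfold pp
  nlinarith

end

abbrev A : Type := Σ n : ℕ, Fin n → ℝ

abbrev W : Type := WType fun p : A => Fin p.1

noncomputable def xv : W → W →₀ ℝ
  | ⟨p, f⟩ => ∑ i, Finsupp.single (f i) (p.2 i)

def ch : W → W → Prop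
  | ⟨_, f⟩, b => ∃ i, f i = b

theorem ch_irr (a : W) : ¬ ch a a := by
  induction a with
  | mk p f ih =>
    rintro ⟨i, h⟩
    apply ih i
    rw [h]
    exact ⟨i, h⟩

theorem xv_zero {a b : W} (h : ¬ ch a b) : xv a b = 0 := by
  obtain ⟨p, f⟩ := a
  simp only [xv, Finsupp.finset_sum_apply]
  exact sum_eq_zero fun i _ => Finsupp.single_eq_of_ne fun hi => h ⟨i, hi.symm⟩

theorem xv_surj : Function.Surjective xv := by
  intro v
  let e := v.support.equivFin
  refine ⟨⟨⟨_, fun i => v (e.symm i)⟩, fun i => e.symm i⟩, ?_⟩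
  simp only [xv]
  rw [e.symm.sum_comp fun a => Finsupp.single (a : W) (v a), sum_coe_sort v.support
    fun a => Finsupp.single a (v a)]
  exact v.sum_single

def sep (m : ℕ) (a b : W) : Prop := xv a = xv b ∨ (2 / 3) ^ m ≤ ip (xv a - xv b) (xv a - xv b)

theorem sep_ev (F : Finset W) : ∃ m, ∀ j, (F : Set W).Pairwise (sep (m + j)) := by
  have h1 : ∀ a b : W, ∀ᶠ m in Filter.atTop, sep m a b := by
    intro a b
    by_cases h : xv a = xv b
    · exact Filter.Eventually.of_forall fun _ => Or.inl h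
    have h2 : 0 < ip (xv a - xv b) (xv a - xv b) := by
      obtain ⟨c, hc⟩ := Finsupp.support_nonempty_iff.mpr (sub_ne_zero.mpr h)
      have := sum_le_ip (xv a - xv b) {c}
      rw [sum_singleton] at this
      exact (sq_pos_of_ne_zero (Finsupp.mem_support_iff.mp hc)).trans_le this
    exact ((tendsto_pow_atTop_nhds_zero_of_lt_one (r := (2 / 3 : ℝ)) (by norm_num)
      (by norm_num)).eventually (ge_mem_nhds h2)).mono fun m hm => Or.inr hm
  obtain ⟨m, hm⟩ := Filter.eventually_atTop.mp ((F ×ˢ F).eventually_all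
    (p := fun p m => sep m p.1 p.2) |>.mpr fun p _ => h1 p.1 p.2)
  exact ⟨m, fun j a ha b hb _ => hm (m + j) (by omega) (a, b) (mem_product.mpr ⟨ha, hb⟩)⟩

def ok (a : W) (R : W → ℝ) (t : ℝ) : Prop :=
  Function.surjInv xv_surj (xv a) = a ∧ 0 < t ∧ t ≤ 1 / 4 ∧
    ∀ b, ch a b → 0 < R b → R b + 2 * t ≤ √(pp sep (xv a - (xv b + Finsupp.single b (R b))))

open Classical in
noncomputable def rad (a : W) : ℝ :=
  WType.rec (motive := fun _ => ℝ) (fun p f ih =>
    let R : W → ℝ := fun b => if h : ∃ i, f i = b then ih h.choose else 0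
    if h : ∃ t, ok ⟨p, f⟩ R t then h.choose else 0) a

theorem rad_spec (a : W) : ok a rad (rad a) ∨ (rad a = 0 ∧ ∀ t, ¬ ok a rad t) := by
  classical
  obtain ⟨p, f⟩ := a
  let R : W → ℝ := fun b => if h : ∃ i, f i = b then rad (f h.choose) else 0
  have e : rad ⟨p, f⟩ = if h : ∃ t, ok ⟨p, f⟩ R t then h.choose else 0 := rfl
  have e2 : ∀ t, ok ⟨p, f⟩ R t ↔ ok ⟨p, f⟩ rad t := by
    intro t
    refine and_congr_right' (and_congr_right' (and_congr_right' (forall₂_congr fun b hb => ?_)))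
    have : R b = rad b := (dif_pos hb).trans (congrArg rad hb.choose_spec)
    rw [this]
  by_cases h : ∃ t, ok ⟨p, f⟩ R t
  · left; rw [e, dif_pos h, ← e2]; exact h.choose_spec
  · right; exact ⟨by rw [e, dif_neg h], fun t ht => h ⟨t, (e2 t).mpr ht⟩⟩

theorem rad_ok {a : W} (h : 0 < rad a) : ok a rad (rad a) :=
  (rad_spec a).resolve_right fun h' => h.ne' h'.1

theorem result : ∃ (X : Type) (_ : NormedAddCommGroup X) (_ : NormedSpace ℝ X),
    ¬ FiniteDimensional ℝ X ∧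
    (∀ x y : X, ‖x‖ = 1 → ‖y‖ = 1 → x ≠ y → ‖(1 / 2 : ℝ) • (x + y)‖ < 1) ∧
    (∀ x : X, ‖x‖ = 1 → ∃! f : StrongDual ℝ X, ‖f‖ = 1 ∧ f x = 1) ∧
    ∃ T : Set (Set X), (∀ C ∈ T, ∃ (c : X) (r : ℝ), 0 < r ∧ C = Metric.closedBall c r) ∧
      ⋃₀ T = Set.univ ∧ T.Pairwise fun C D => Disjoint (interior C) (interior D) := by
  classical
  letI i1 : NormedAddCommGroup (W →₀ ℝ) := (gn sep).toNormedAddCommGroup
  letI i2 : NormedSpace ℝ (W →₀ ℝ) := ⟨fun t u => sqrt_smul sep u t⟩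
  have hn : ∀ u : W →₀ ℝ, ‖u‖ = √(pp sep u) := fun _ => rfl
  have hsq : ∀ u : W →₀ ℝ, pp sep u = ‖u‖ ^ 2 := fun u => (Real.sq_sqrt (pp_nonneg sep u)).symm
  have hs1 : ∀ (a : W) (t : ℝ), 0 < t → ‖Finsupp.single a t‖ ≤ t := fun a t ht =>
    Real.sqrt_le_iff.mpr ⟨ht.le, pp_single sep a t⟩
  refine ⟨W →₀ ℝ, i1, i2, fun h => ?_, fun x y hx hy hxy => ?_, fun x hx => ?_,
    {C | ∃ a, 0 < rad a ∧ C = Metric.closedBall (xv a + Finsupp.single a (rad a)) (rad a)},
    fun C ⟨a, h1, h2⟩ => ⟨_, _, h1, h2⟩, Set.eq_univ_of_forall fun v => ?_, ?_⟩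
  · haveI : Finite W := Module.Finite.finite_basis (Finsupp.basisSingleOne (R := ℝ))
    let z : W := ⟨⟨0, Fin.elim0⟩, Fin.elim0⟩
    have : Function.Injective (xv ∘ fun t : ℝ => ⟨⟨1, fun _ => t⟩, fun _ => z⟩) := by
      intro s t h
      simpa [xv] using DFunLike.congr_fun h z
    exact not_finite_iff_infinite.mpr inferInstance (Finite.of_injective _ this.of_comp)
  · obtain ⟨m, hm⟩ := sep_ev (x.support ∪ y.support)
    have h1 := pp_rot sep m x y subset_union_left subset_union_right hm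
    obtain ⟨c, hc⟩ := Finsupp.support_nonempty_iff.mpr (sub_ne_zero.mpr hxy)
    have h2 : 0 < ∑ a ∈ x.support ∪ y.support, (x a - y a) ^ 2 :=
      sum_pos' (fun _ _ => sq_nonneg _) ⟨c, Finsupp.support_sub hc,
        sq_pos_of_ne_zero (Finsupp.mem_support_iff.mp hc)⟩
    have h3 := mul_pos (show (0 : ℝ) < (1 / 2) ^ (m + 1) by positivity) h2
    rw [hsq, hsq, hsq, hx, hy] at h1
    rw [norm_smul, Real.norm_eq_abs, abs_of_pos (by norm_num)]
    nlinarith [norm_nonneg (x + y)]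
  · obtain ⟨f, hf1, hf2⟩ := exists_dual_vector ℝ x (by rw [hx]; exact one_ne_zero)
    have key : ∀ f g : StrongDual ℝ (W →₀ ℝ), ‖f‖ = 1 → f x = 1 → ‖g‖ = 1 → g x = 1 →
        ∀ v, f v ≤ g v := by
      intro f g f1 f2 g1 g2 v
      obtain ⟨m, hm⟩ := sep_ev (x.support ∪ v.support)
      set K := 2 ^ (m + 1) * ∑ a ∈ x.support ∪ v.support, v a ^ 2 with hK
      have K0 : 0 ≤ K := by positivity
      refine le_of_forall_pos_le_add fun ε hε => ?_
      have ht : 0 < ε / (K + 1) := by positivity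
      have ht' : ε / (K + 1) * K ≤ ε := by
        rw [div_mul_eq_mul_div, div_le_iff₀ (by positivity)]; nlinarith
      generalize ε / (K + 1) = t at ht ht'
      have h1 := pp_smooth sep m x (t • v) subset_union_left
        (Finsupp.support_smul.trans subset_union_right) hm
      simp only [Finsupp.smul_apply, smul_eq_mul, mul_pow, ← mul_sum] at h1
      rw [hsq, hsq, hsq, hx] at h1
      have h2 := f.le_opNorm (x + t • v)
      have h3 := g.le_opNorm (x - t • v)
      rw [f1, one_mul, map_add, map_smul, f2, Real.norm_eq_abs, smul_eq_mul] at h2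
      rw [g1, one_mul, map_sub, map_smul, g2, Real.norm_eq_abs, smul_eq_mul] at h3
      have h4 := sq_le_sq' (abs_le.mp h2).1 (abs_le.mp h2).2
      have h5 := sq_le_sq' (abs_le.mp h3).1 (abs_le.mp h3).2
      have h6 : t * (f v - g v) ≤ t * (t * K) := by
        rw [hK]; nlinarith [sq_nonneg (t * f v), sq_nonneg (t * g v)]
      linarith [le_of_mul_le_mul_left h6 ht]
    have hf3 : f x = 1 := by simpa [hx] using hf2
    exact ⟨f, ⟨hf1, hf3⟩, fun g hg => ContinuousLinearMap.ext fun v =>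
      le_antisymm (key g f hg.1 hg.2 hf1 hf3 v) (key f g hf1 hf3 hg.1 hg.2 v)⟩
  · set a := Function.surjInv xv_surj v with ha
    have hv : xv a = v := Function.surjInv_eq xv_surj v
    rcases rad_spec a with h | h
    · refine ⟨_, ⟨a, h.2.1, rfl⟩, ?_⟩
      rw [Metric.mem_closedBall, dist_comm, dist_eq_norm, hv, add_sub_cancel_left]
      exact hs1 _ _ h.2.1
    by_contra hc
    have h1 : ∀ b, 0 < rad b → rad b < ‖xv a - (xv b + Finsupp.single b (rad b))‖ := by
      intro b hb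
      by_contra h2
      exact hc ⟨_, ⟨b, hb, rfl⟩, by rw [Metric.mem_closedBall, dist_eq_norm, ← hv]; linarith⟩
    have h2 : ∀ᶠ t in nhdsWithin (0 : ℝ) (Set.Ioi 0), ok a rad t := by
      refine (Filter.Eventually.of_forall fun _ => by rw [hv]).and
        (Filter.Eventually.and self_mem_nhdsWithin (Filter.Eventually.and
          (nhdsWithin_le_nhds (ge_mem_nhds (by norm_num))) ?_))
      have h3 : {b | ch a b}.Finite := by
        clear_value a
        obtain ⟨p, f⟩ := a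
        exact Set.finite_range f
      refine (Filter.eventually_all_finite h3).mpr fun b _ => ?_
      by_cases hb : 0 < rad b
      · filter_upwards [nhdsWithin_le_nhds (ge_mem_nhds (half_pos (sub_pos.mpr (h1 b hb))))]
          with t ht _
        have : t ≤ _ := ht
        rw [← hn]; linarith
      · exact Filter.Eventually.of_forall fun _ h => absurd h hb
    obtain ⟨t, ht⟩ := h2.exists
    exact h.2 t ht
  · rintro _ ⟨a, ha, rfl⟩ _ ⟨b, hb, rfl⟩ hne
    have hab : a ≠ b := fun h => hne (by rw [h])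
    rw [interior_closedBall _ ha.ne', interior_closedBall _ hb.ne']
    refine Metric.ball_disjoint_ball ?_
    have key : ∀ a b, 0 < rad a → 0 < rad b → ch a b → rad a + rad b ≤
        dist (xv a + Finsupp.single a (rad a)) (xv b + Finsupp.single b (rad b)) := by
      intro a b ha hb h
      have h1 := (rad_ok ha).2.2.2 b h hb
      rw [← hn, ← dist_eq_norm] at h1
      have h2 := dist_triangle (xv a) (xv a + Finsupp.single a (rad a))
        (xv b + Finsupp.single b (rad b))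
      rw [dist_self_add_right] at h2
      linarith [hs1 a _ ha]
    by_cases c1 : ch a b
    · exact key a b ha hb c1
    by_cases c2 : ch b a
    · rw [dist_comm, add_comm]; exact key b a hb ha c2
    have h1 := rad_ok ha
    have h2 := rad_ok hb
    have h3 := pp_far sep (xv a - xv b) a b hab (by simp [xv_zero c2, xv_zero (ch_irr a)])
      (by simp [xv_zero c1, xv_zero (ch_irr b)]) (rad a) (rad b) (by linarith)
      (by linarith [h1.2.2.1, h2.2.2.1]) fun m hm => hm.resolve_left fun h =>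
        hab (by rw [← h1.1, h, h2.1])
    rw [dist_eq_norm, hn]
    refine Real.le_sqrt_of_sq_le (h3.trans_eq (congrArg _ ?_))
    abel

end Pool.Agent.Results.MP_2a41cd_an.RotundSmoothTiling
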